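import Pool.Agent.Lib.MP_61e5a9_gt.Main

set_option autoImplicit false

namespace Pool.Agent.Results.MP_61e5a9_gt.CircleSymmetric

open Pool.Agent.Lib.MP_61e5a9_gt

/-- Points of the unit sphere of `ℝ⁴`. -/
def OnSphere (p : Fin 4 → ℝ) : Prop := ∑ i, p i ^ 2 = 1

/-- `v` is orthogonal to `p`, that is, tangent at `p` to the sphere through `p`. -/
def Tangent (p v : Fin 4 → ℝ) : Prop := ∑ i, p i * v i = 0

/-- `r` is a Reeb vector of `α` at the point `p` of the sphere: it is tangent, `α(r) = 1`, and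
`dα(r, v) = 0` for all tangent vectors `v`. -/
def IsReebVector (α : (Fin 4 → ℝ) → (Fin 4 → ℝ) →L[ℝ] ℝ) (p r : Fin 4 → ℝ) : Prop :=
  Tangent p r ∧ α p r = 1 ∧
    ∀ v : Fin 4 → ℝ, Tangent p v → fderiv ℝ α p r v - fderiv ℝ α p v r = 0

/-- `α` is smooth and restricts to a contact form on the unit sphere: at each point of the
sphere there is exactly one Reeb vector. -/
def IsContactForm (α : (Fin 4 → ℝ) → (Fin 4 → ℝ) →L[ℝ] ℝ) : Prop :=
  ContDiff ℝ ((⊤ : ℕ∞) : WithTop ℕ∞) α ∧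
    ∀ p : Fin 4 → ℝ, OnSphere p → ∃! r : Fin 4 → ℝ, IsReebVector α p r

/-- `R` is a smooth field on `ℝ⁴` that extends the Reeb field of `α` on the sphere. -/
def IsReebField (α : (Fin 4 → ℝ) → (Fin 4 → ℝ) →L[ℝ] ℝ) (R : (Fin 4 → ℝ) → (Fin 4 → ℝ)) :
    Prop :=
  ContDiff ℝ ((⊤ : ℕ∞) : WithTop ℕ∞) R ∧ ∀ p : Fin 4 → ℝ, OnSphere p → IsReebVector α p (R p)

/-- `Φ` is a smooth action of `ℝ/ℤ` on the sphere (given by a smooth family of maps of `ℝ⁴`)
that is not trivial and preserves `α` on the sphere. -/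
def IsCircleSymmetry (α : (Fin 4 → ℝ) → (Fin 4 → ℝ) →L[ℝ] ℝ)
    (Φ : ℝ → (Fin 4 → ℝ) → (Fin 4 → ℝ)) : Prop :=
  ContDiff ℝ ((⊤ : ℕ∞) : WithTop ℕ∞) (fun z : ℝ × (Fin 4 → ℝ) => Φ z.1 z.2) ∧
  (∀ (t : ℝ) (p : Fin 4 → ℝ), OnSphere p → OnSphere (Φ t p)) ∧
  (∀ p : Fin 4 → ℝ, OnSphere p → Φ 0 p = p) ∧
  (∀ (s t : ℝ) (p : Fin 4 → ℝ), OnSphere p → Φ (s + t) p = Φ s (Φ t p)) ∧
  (∀ p : Fin 4 → ℝ, OnSphere p → Φ 1 p = p) ∧
  (∀ (t : ℝ) (p v : Fin 4 → ℝ), OnSphere p → Tangent p v →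
    α (Φ t p) (fderiv ℝ (Φ t) p v) = α p v) ∧
  ∃ (t : ℝ) (p : Fin 4 → ℝ), OnSphere p ∧ Φ t p ≠ p

/-- There is a closed orbit of `R` on the sphere such that no real multiplier of the linearised
flow over one period, for an eigenvector in the contact plane, lies off the unit circle. -/
def HasEllipticOrbit (α : (Fin 4 → ℝ) → (Fin 4 → ℝ) →L[ℝ] ℝ) (R : (Fin 4 → ℝ) → (Fin 4 → ℝ)) :
    Prop :=
  ∃ γ : ℝ → (Fin 4 → ℝ), ∃ T : ℝ, 0 < T ∧ (∀ t : ℝ, OnSphere (γ t)) ∧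
    (∀ t : ℝ, HasDerivAt γ (R (γ t)) t) ∧ γ T = γ 0 ∧
    ∀ μ : ℝ, ∀ w : ℝ → (Fin 4 → ℝ),
      Tangent (γ 0) (w 0) → α (γ 0) (w 0) = 0 → w 0 ≠ 0 →
      (∀ t : ℝ, HasDerivAt w (fderiv ℝ R (γ t) (w t)) t) → w T = μ • w 0 → |μ| = 1

/-- Every contact form on the unit sphere of `ℝ⁴` that is invariant under a nontrivial smooth
circle action has a closed Reeb orbit that is elliptic or degenerate. -/
theorem result (α : (Fin 4 → ℝ) → (Fin 4 → ℝ) →L[ℝ] ℝ) (hα : IsContactForm α)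
    (R : (Fin 4 → ℝ) → (Fin 4 → ℝ)) (hR : IsReebField α R)
    (Φ : ℝ → (Fin 4 → ℝ) → (Fin 4 → ℝ)) (hΦ : IsCircleSymmetry α Φ) :
    HasEllipticOrbit α R := by
  obtain ⟨hαs, hcontact⟩ := hα
  obtain ⟨hRs, hReeb⟩ := hR
  obtain ⟨hΦs, hsph, hzero, hadd, hone, hinv, t, p, hp, hne'⟩ := hΦ
  simp only [OnSphere] at *
  have hCD : CD α R := by
    refine ⟨hαs, hRs, ?_, ?_, ?_, ?_⟩
    · intro p hp z hz hαz hom
      rw [ip_self] at hp
      obtain ⟨r, hr, huniq⟩ := hcontact p hp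
      obtain ⟨h1, h2, h3⟩ := hReeb p hp
      have e1 := huniq (R p) ⟨h1, h2, h3⟩
      have e2 := huniq (R p + z) ⟨by
        rw [ip_apply] at hz
        simp only [Tangent] at h1 ⊢
        simp only [Pi.add_apply, mul_add, Finset.sum_add_distrib, h1, hz, add_zero],
        by rw [map_add, h2, hαz, add_zero], fun v hv => by
        have k1 := h3 v hv
        have k2 := hom v (by rw [ip_apply]; exact hv)
        rw [om] at k2
        rw [map_add, map_add, add_apply]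
        linarith⟩
      have e3 : R p + z = R p + 0 := by rw [e2, add_zero, e1]
      exact add_left_cancel e3
    · intro p hp
      rw [ip_self] at hp
      rw [ip_apply]
      exact (hReeb p hp).1
    · intro p hp
      rw [ip_self] at hp
      exact (hReeb p hp).2.1
    · intro p hp v hv
      rw [ip_self] at hp
      rw [ip_apply] at hv
      exact (hReeb p hp).2.2 v hv
  have hAct : Act α Φ := by
    refine ⟨hΦs, ?_, ?_, ?_, ?_, ?_⟩
    · intro t p hp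
      rw [ip_self] at hp ⊢
      exact hsph t p hp
    · intro p hp
      rw [ip_self] at hp
      exact hzero p hp
    · intro s t p hp
      rw [ip_self] at hp
      exact hadd s t p hp
    · intro p hp
      rw [ip_self] at hp
      exact hone p hp
    · intro t p v hp hv
      rw [ip_self] at hp
      rw [ip_apply] at hv
      exact hinv t p v hp hv
  obtain ⟨γ, T, hT, hS, hγ, hper, hmult⟩ :=
    main_circle hCD hAct ⟨t, p, by rw [ip_self]; exact hp, hne'⟩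
  refine ⟨γ, T, hT, fun t => by
    have := hS t
    rw [ip_self] at this
    exact this, hγ, hper, ?_⟩
  intro μ w hw0 _ hwne hw hwT
  exact hmult μ w (by rw [ip_apply]; exact hw0) hwne hw hwT

end Pool.Agent.Results.MP_61e5a9_gt.CircleSymmetric
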