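import Pool.Agent.Lib.MP_61e5a9_gt.Fix3
import Pool.Agent.Lib.MP_61e5a9_gt.Fin

set_option autoImplicit false

namespace Pool.Agent.Results.MP_61e5a9_gt.RotationSymmetric

open Pool.Agent.Lib.MP_61e5a9_gt

/-- Points of the unit sphere of `ℝ⁴`. -/
def OnSphere (p : Fin 4 → ℝ) : Prop := ∑ i, p i ^ 2 = 1

/-- `v` is orthogonal to `p`, that is, tangent at `p` to the sphere through `p`. -/
def Tangent (p v : Fin 4 → ℝ) : Prop := ∑ i, p i * v i = 0

/-- `r` is a Reeb vector of `α` at the point `p` of the sphere: it is tangent, `α(r) = 1`, and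
`dα(r, v) = 0` for all tangent vectors `v`. -/
def IsReebVector (α : (Fin 4 → ℝ) → (Fin 4 → ℝ) →L[ℝ] ℝ) (p r : Fin 4 → ℝ) : Prop :=
  Tangent p r ∧ α p r = 1 ∧
    ∀ v : Fin 4 → ℝ, Tangent p v → fderiv ℝ α p r v - fderiv ℝ α p v r = 0

/-- `α` is smooth and restricts to a contact form on the unit sphere: at each point of the
sphere there is exactly one Reeb vector. -/
def IsContactForm (α : (Fin 4 → ℝ) → (Fin 4 → ℝ) →L[ℝ] ℝ) : Prop :=
  ContDiff ℝ ((⊤ : ℕ∞) : WithTop ℕ∞) α ∧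
    ∀ p : Fin 4 → ℝ, OnSphere p → ∃! r : Fin 4 → ℝ, IsReebVector α p r

/-- `R` is a smooth field on `ℝ⁴` that extends the Reeb field of `α` on the sphere. -/
def IsReebField (α : (Fin 4 → ℝ) → (Fin 4 → ℝ) →L[ℝ] ℝ) (R : (Fin 4 → ℝ) → (Fin 4 → ℝ)) :
    Prop :=
  ContDiff ℝ ((⊤ : ℕ∞) : WithTop ℕ∞) R ∧ ∀ p : Fin 4 → ℝ, OnSphere p → IsReebVector α p (R p)

/-- `g` is smooth, maps the sphere to itself, and on the sphere it preserves `α` or commutes with
the Reeb field. -/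
def IsReebSymmetry (α : (Fin 4 → ℝ) → (Fin 4 → ℝ) →L[ℝ] ℝ) (R : (Fin 4 → ℝ) → (Fin 4 → ℝ))
    (g : (Fin 4 → ℝ) → (Fin 4 → ℝ)) : Prop :=
  ContDiff ℝ ((⊤ : ℕ∞) : WithTop ℕ∞) g ∧ (∀ p : Fin 4 → ℝ, OnSphere p → OnSphere (g p)) ∧
    ((∀ p v : Fin 4 → ℝ, OnSphere p → Tangent p v → α (g p) (fderiv ℝ g p v) = α p v) ∨
      ∀ p : Fin 4 → ℝ, OnSphere p → fderiv ℝ g p (R p) = R (g p))

/-- The map induced by the derivative of `g` at `p` on the tangent space modulo the Reeb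
direction has no real eigenvalue (classes are represented by vectors of the contact plane). -/
def NoRealEigenvalue (α : (Fin 4 → ℝ) → (Fin 4 → ℝ) →L[ℝ] ℝ) (R : (Fin 4 → ℝ) → (Fin 4 → ℝ))
    (g : (Fin 4 → ℝ) → (Fin 4 → ℝ)) (p : Fin 4 → ℝ) : Prop :=
  ∀ v : Fin 4 → ℝ, Tangent p v → α p v = 0 → v ≠ 0 →
    ∀ μ c : ℝ, fderiv ℝ g p v ≠ μ • v + c • R p

/-- On the sphere some iterate of `g` is the identity, and `g ∘ g` is not. -/
def FiniteOrderAtLeastThree (g : (Fin 4 → ℝ) → (Fin 4 → ℝ)) : Prop :=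
  (∃ k : ℕ, 0 < k ∧ ∀ q : Fin 4 → ℝ, OnSphere q → g^[k] q = q) ∧
    ∃ q : Fin 4 → ℝ, OnSphere q ∧ g (g q) ≠ q

/-- The orbit of `R` through `p` is closed, and no real multiplier of the linearised flow over
one period, for an eigenvector in the contact plane, lies off the unit circle. -/
def HasEllipticOrbitThrough (α : (Fin 4 → ℝ) → (Fin 4 → ℝ) →L[ℝ] ℝ)
    (R : (Fin 4 → ℝ) → (Fin 4 → ℝ)) (p : Fin 4 → ℝ) : Prop :=
  ∃ γ : ℝ → (Fin 4 → ℝ), ∃ T : ℝ, 0 < T ∧ γ 0 = p ∧ (∀ t : ℝ, OnSphere (γ t)) ∧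
    (∀ t : ℝ, HasDerivAt γ (R (γ t)) t) ∧ γ T = γ 0 ∧
    ∀ μ : ℝ, ∀ w : ℝ → (Fin 4 → ℝ),
      Tangent (γ 0) (w 0) → α (γ 0) (w 0) = 0 → w 0 ≠ 0 →
      (∀ t : ℝ, HasDerivAt w (fderiv ℝ R (γ t) (w t)) t) → w T = μ • w 0 → |μ| = 1

/-- Let `g` be a symmetry of the Reeb field of a contact form on the unit sphere of `ℝ⁴` with a
fixed point `p`. If the derivative of `g` at `p` has no real eigenvalue modulo the Reeb direction,
or if `g` has finite order at least three, then the Reeb orbit through `p` is closed and is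
elliptic or degenerate. -/
theorem result (α : (Fin 4 → ℝ) → (Fin 4 → ℝ) →L[ℝ] ℝ) (hα : IsContactForm α)
    (R : (Fin 4 → ℝ) → (Fin 4 → ℝ)) (hR : IsReebField α R)
    (g : (Fin 4 → ℝ) → (Fin 4 → ℝ)) (hg : IsReebSymmetry α R g)
    (p : Fin 4 → ℝ) (hp : OnSphere p) (hfix : g p = p)
    (hcase : NoRealEigenvalue α R g p ∨ FiniteOrderAtLeastThree g) :
    HasEllipticOrbitThrough α R p := by
  obtain ⟨hαs, hcontact⟩ := hα
  obtain ⟨hRs, hReeb⟩ := hR
  obtain ⟨hgs, hsph, hinv⟩ := hg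
  simp only [OnSphere, NoRealEigenvalue, FiniteOrderAtLeastThree, HasEllipticOrbitThrough] at *
  have hCD : CD α R := by
    refine ⟨hαs, hRs, ?_, ?_, ?_, ?_⟩
    · intro p hp z hz hαz hom
      rw [ip_self] at hp
      obtain ⟨r, hr, huniq⟩ := hcontact p hp
      obtain ⟨h1, h2, h3⟩ := hReeb p hp
      have e1 := huniq (R p) ⟨h1, h2, h3⟩
      have e2 := huniq (R p + z) ⟨by
        rw [ip_apply] at hz
        simp only [Tangent] at h1 ⊢
        simp only [Pi.add_apply, mul_add, Finset.sum_add_distrib, h1, hz, add_zero],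
        by rw [map_add, h2, hαz, add_zero], fun v hv => by
        have k1 := h3 v hv
        have k2 := hom v (by rw [ip_apply]; exact hv)
        rw [om] at k2
        rw [map_add, map_add, add_apply]
        linarith⟩
      have e3 : R p + z = R p + 0 := by rw [e2, add_zero, e1]
      exact add_left_cancel e3
    · intro p hp
      rw [ip_self] at hp
      rw [ip_apply]
      exact (hReeb p hp).1
    · intro p hp
      rw [ip_self] at hp
      exact (hReeb p hp).2.1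
    · intro p hp v hv
      rw [ip_self] at hp
      rw [ip_apply] at hv
      exact (hReeb p hp).2.2 v hv
  have hsph' : ∀ p, ip p p = 1 → ip (g p) (g p) = 1 := by
    intro p hp
    rw [ip_self] at hp ⊢
    exact hsph p hp
  have hCo : Co R g := by
    rcases hinv with hinv | hcom
    · have hSy : Sy α g := by
        refine ⟨hgs, hsph', ?_⟩
        intro p v hp hv
        rw [ip_self] at hp
        rw [ip_apply] at hv
        exact hinv p v hp hv
      exact hSy.toCo hCD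
    · refine ⟨hgs, hsph', ?_⟩
      intro p hp
      rw [ip_self] at hp
      exact hcom p hp
  have hp' : ip p p = 1 := by rw [ip_self]; exact hp
  have hne : ∀ v, ip p v = 0 → α p v = 0 → v ≠ 0 → ∀ μ c : ℝ,
      fderiv ℝ g p v ≠ μ • v + c • R p := by
    rcases hcase with hA | ⟨⟨k, hk, hkid⟩, q, hq, hgq⟩
    · intro v hv hαv hv0 μ c
      exact hA v (by rw [ip_apply] at hv; exact hv) hαv hv0 μ c
    · exact no_real_of_order hCD hCo hk (fun x hx => hkid x (by rw [ip_self] at hx; exact hx))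
        ⟨q, by rw [ip_self]; exact hq, hgq⟩ hp' hfix
  obtain ⟨γ, T, hT, hγ0, hS, hγ, hper, hmult⟩ := main_fixed hCD hCo hp' hfix hne
  refine ⟨γ, T, hT, hγ0, fun t => by
    have := hS t
    rw [ip_self] at this
    exact this, hγ, hper, ?_⟩
  intro μ w hw0 hαw hwne hw hwT
  exact hmult μ w (by rw [ip_apply]; exact hw0) hαw hwne hw hwT

end Pool.Agent.Results.MP_61e5a9_gt.RotationSymmetric
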